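import Mathlib
import Pool.Agent.H57.Cong

namespace Pool.Agent.Results.MP_f96d9d_nt.FailsQ1

open Finset Pool.Agent.H57.Cong

/-- the sum with denominator 4096 ^ k -/
def A2 (p : ℕ) : ℚ := ∑ k ∈ range p, (T k 18 49 : ℚ) ^ 3 / 4096 ^ k

/-- The case p = 3 mod 4 of Q1 fails. -/
theorem result : ¬ ∀ p : ℕ, p.Prime → 3 < p → p % 4 = 3 → Cong p 2 (A2 p) 0 := by
  intro h
  have := h 7 (by norm_num) (by norm_num) (by norm_num)
  refine not_cong (by norm_num) ?_ this
  simp only [A2, T, Nat.choose_eq_descFactorial_div_factorial]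
  decide +kernel

end Pool.Agent.Results.MP_f96d9d_nt.FailsQ1
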