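import Mathlib
import Pool.Agent.H57.Cong

namespace Pool.Agent.Results.MP_f96d9d_nt.FailsQ2

open Finset Pool.Agent.H57.Cong

/-- the sum with denominator (-512) ^ k -/
def B1 (p : ℕ) : ℚ := ∑ k ∈ range p, (T k 10 49 : ℚ) ^ 3 / (-512) ^ k

/-- The case p = 5, 7 mod 8 of Q2 fails. -/
theorem result : ¬ ∀ p : ℕ, p.Prime → 3 < p → (p % 8 = 5 ∨ p % 8 = 7) →
    Cong p 2 ((jacobiSym (-1) p : ℚ) * B1 p) 0 := by
  intro h
  have := h 7 (by norm_num) (by norm_num) (by norm_num)
  rw [show jacobiSym (-1) 7 = -1 by norm_num] at this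
  refine not_cong (by norm_num) ?_ this
  simp only [B1, T, Nat.choose_eq_descFactorial_div_factorial]
  decide +kernel

end Pool.Agent.Results.MP_f96d9d_nt.FailsQ2
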